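import Pool.Agent.Q216.RK.Basic

/-!
# Read-k families: closures, isolating conjunctions, number of terms, restriction
-/

set_option autoImplicit false

namespace Pool.Agent.Q121.RK

open Finset Pool.Agent.Q216.RK

variable {n : ℕ}

theorem len_eq_sum {T : Tm n} {Y : Finset (Fin n)} (h : vars T ⊆ Y) :
    len T = ∑ i ∈ Y, if T i ≠ none then 1 else 0 := by
  rw [← card_filter, len]
  congr 1
  ext i
  rw [mem_vars, mem_filter]
  exact ⟨fun hi => ⟨h (mem_vars.2 hi), hi⟩, fun hi => hi.2⟩

/-- double counting -/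
theorem sum_len_le {k : ℕ} {F G : Finset (Tm n)} (hF : ReadK k F) (hG : G ⊆ F)
    {Y : Finset (Fin n)} (hY : ∀ T ∈ G, vars T ⊆ Y) : ∑ T ∈ G, len T ≤ k * Y.card := by
  calc ∑ T ∈ G, len T = ∑ T ∈ G, ∑ i ∈ Y, (if T i ≠ none then 1 else 0) :=
        sum_congr rfl fun T hT => len_eq_sum (hY T hT)
    _ = ∑ i ∈ Y, ∑ T ∈ G, (if T i ≠ none then 1 else 0) := sum_comm
    _ = ∑ i ∈ Y, (G.filter (fun T => T i ≠ none)).card :=
        sum_congr rfl fun i _ => by rw [card_filter]
    _ ≤ ∑ _i ∈ Y, k := sum_le_sum fun i _ => hF.mono hG i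
    _ = k * Y.card := by rw [sum_const, smul_eq_mul, mul_comm]

/-- CL. -/
theorem t_CL : S_CL := by
  classical
  intro k l m n F hk hl hm hF hlen A
  set yg : Finset (Tm n) → Finset (Fin n) := fun G => A ∪ G.biUnion vars with hyg
  set P := F.powerset.filter (fun G => (yg G).card ≤ A.card + l * G.card) with hP
  have hPne : P.Nonempty := ⟨∅, by
    rw [hP, mem_filter, mem_powerset]
    exact ⟨empty_subset _, by rw [hyg]; simp⟩⟩
  obtain ⟨G, hG, hmax⟩ := exists_max_image P card hPne
  rw [hP, mem_filter, mem_powerset] at hG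
  have hsub : ∀ T ∈ G, vars T ⊆ yg G := fun T hT i hi =>
    mem_union_right _ (mem_biUnion.2 ⟨T, hT, hi⟩)
  have h1 : m * G.card ≤ k * (yg G).card := by
    calc m * G.card = ∑ _T ∈ G, m := by rw [sum_const, smul_eq_mul, mul_comm]
      _ ≤ ∑ T ∈ G, len T := sum_le_sum fun T hT => hlen T (hG.1 hT)
      _ ≤ k * (yg G).card := sum_len_le hF hG.1 hsub
  refine ⟨yg G, subset_union_left, ?_, ?_⟩
  · have h2 : 4 * k * l * G.card ≤ k * (A.card + l * G.card) :=
      (Nat.mul_le_mul_right _ hm).trans (h1.trans (Nat.mul_le_mul_left k hG.2))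
    have h3 : k * (3 * (l * G.card)) ≤ k * A.card := by
      have e1 : 4 * k * l * G.card = k * (3 * (l * G.card)) + k * (l * G.card) := by ring
      have e2 : k * (A.card + l * G.card) = k * A.card + k * (l * G.card) := by ring
      omega
    have h4 : 3 * (l * G.card) ≤ A.card := Nat.le_of_mul_le_mul_left h3 (by omega)
    have := hG.2
    omega
  · intro T hT
    by_contra hcon
    push Not at hcon
    obtain ⟨h5, h6⟩ := hcon
    have hTG : T ∉ G := fun h => h5 (hsub T h)
    have h7 : insert T G ∈ P := by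
      rw [hP, mem_filter, mem_powerset]
      refine ⟨insert_subset hT hG.1, ?_⟩
      have e1 : yg (insert T G) = yg G ∪ (vars T \ yg G) := by
        rw [hyg]
        dsimp only
        rw [biUnion_insert]
        ext i
        simp only [mem_union, mem_sdiff]
        tauto
      rw [e1, card_insert_of_notMem hTG]
      refine (card_union_le _ _).trans ?_
      have := hG.2
      have e2 : l * (G.card + 1) = l * G.card + l := by ring
      omega
    have h8 := hmax _ h7
    rw [card_insert_of_notMem hTG] at h8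
    omega

/-- ISO. -/
theorem t_ISO : S_ISO := by
  classical
  intro k n F hF T hT i z hTi hz hoff
  have hoff' := on_false_iff.1 hoff
  have hj : ∀ T' : Tm n, ∃ j : Fin n, T' ∈ F → T' ≠ T → T' i ≠ none →
      j ≠ i ∧ T' j = some (!(z j)) := by
    intro T'
    by_cases h : T' ∈ F ∧ T' ≠ T ∧ T' i ≠ none
    · obtain ⟨h1, h2, h3⟩ := h
      have hs : ¬ satT T' z = true := fun hc => h2 ((hz T' h1).1 hc)
      rw [Bool.not_eq_true] at hs
      by_contra hcon
      push Not at hcon
      have hall : ∀ j, j ≠ i → T' j ≠ some (!(z j)) := fun j hj => (hcon j).2.2.2 hj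
      obtain ⟨j0, hj0⟩ := satT_false_iff.1 hs
      have hj0i : j0 = i := by
        by_contra hne
        exact hall j0 hne hj0
      subst hj0i
      have h4 : satT T' (flp z j0) = true := by
        rw [satT_iff]
        intro j b hb
        by_cases hjj : j = j0
        · subst hjj
          rw [flp_same]
          rw [hj0] at hb
          exact Option.some.inj hb
        · rw [flp_of_ne z hjj]
          by_contra hne
          apply hall j hjj
          rw [hb]
          congr 1
          cases b <;> cases h5 : z j <;> simp_all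
      rw [hoff' T' h1] at h4
      exact Bool.false_ne_true h4
    · exact ⟨i, fun h1 h2 h3 => absurd ⟨h1, h2, h3⟩ h⟩
  choose jf hjf using hj
  set B := (F.filter (fun T' => T' i ≠ none)).erase T with hB
  set Q : Tm n := fun j => if j ∈ B.image jf then some (z j) else none with hQ
  have hBm : ∀ T' ∈ B, T' ∈ F ∧ T' ≠ T ∧ T' i ≠ none := by
    intro T' h
    rw [hB, mem_erase, mem_filter] at h
    exact ⟨h.2.1, h.1, h.2.2⟩
  have hvQ : vars Q = B.image jf := by
    ext j
    rw [mem_vars, hQ]
    dsimp only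
    by_cases h : j ∈ B.image jf
    · simp [h]
    · rw [if_neg h]
      simp only [ne_eq, not_true_eq_false, false_iff]
      exact h
  refine ⟨Q, ?_, ?_, ⟨?_, ?_⟩, ?_⟩
  · have h1 : T ∈ F.filter (fun T' => T' i ≠ none) := mem_filter.2 ⟨hT, hTi⟩
    have h2 : B.card + 1 = (F.filter (fun T' => T' i ≠ none)).card := by
      rw [hB]
      exact card_erase_add_one h1
    have h3 : len Q ≤ B.card := by
      rw [len, hvQ]
      exact card_image_le
    have := hF i
    omega
  · rw [satT_iff]
    intro j b hb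
    rw [hQ] at hb
    dsimp only at hb
    split_ifs at hb
    exact Option.some.inj hb
  · rw [hQ]
    dsimp only
    rw [if_neg]
    intro h
    obtain ⟨T', h1, h2⟩ := mem_image.1 h
    obtain ⟨a1, a2, a3⟩ := hBm T' h1
    exact (hjf T' a1 a2 a3).1 h2
  · intro T' h1 h2 h3
    have h4 : T' ∈ B := by
      rw [hB, mem_erase, mem_filter]
      exact ⟨h2, h1, h3⟩
    obtain ⟨a1, a2⟩ := hjf T' h1 h2 h3
    refine ⟨jf T', z (jf T'), a1, ?_, a2⟩
    rw [hQ]
    dsimp only
    rw [if_pos (mem_image_of_mem jf h4)]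
  · intro j hj
    rw [← mem_vars, hvQ] at hj
    obtain ⟨T', h1, h2⟩ := mem_image.1 hj
    obtain ⟨a1, a2, a3⟩ := hBm T' h1
    refine ⟨T', a1, ?_⟩
    rw [← h2, (hjf T' a1 a2 a3).2]
    simp

/-- CARD. -/
theorem t_CARD : S_CARD := by
  classical
  intro k n F hF
  set E : Tm n := fun _ => none with hE
  have h1 : F.erase E ⊆ univ.biUnion (fun i => F.filter (fun T => T i ≠ none)) := by
    intro T hT
    rw [mem_erase] at hT
    obtain ⟨i, hi⟩ := Function.ne_iff.1 hT.1
    rw [mem_biUnion]
    exact ⟨i, mem_univ i, mem_filter.2 ⟨hT.2, hi⟩⟩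
  have h2 : (F.erase E).card ≤ k * n := by
    refine (card_le_card h1).trans (card_biUnion_le.trans ?_)
    refine (sum_le_sum fun i _ => hF i).trans ?_
    rw [sum_const, card_univ, Fintype.card_fin, smul_eq_mul, mul_comm]
  have h3 : F.card ≤ (F.erase E).card + 1 := by
    by_cases h : E ∈ F
    · rw [card_erase_add_one h]
    · rw [erase_eq_of_notMem h]
      omega
  omega

/-- RES. -/
theorem t_RES : S_RES := by
  classical
  intro k n F R hF
  set F0 := F.filter (fun T => ∀ i b, T i = some b → R i ≠ some (!b)) with hF0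
  set G := F0.image (fun T => cut T (vars R)) with hG
  have hGR : ReadK k G := (hF.mono (filter_subset _ _)).image_cut (vars R)
  -- the restricted terms
  have key : ∀ T0 ∈ F0, ∀ x, satT R x = true → satT (cut T0 (vars R)) x = satT T0 x := by
    intro T0 h0 x hx
    rw [hF0, mem_filter] at h0
    rw [satT_iff] at hx
    rw [Bool.eq_iff_iff, satT_iff, satT_iff]
    constructor
    · intro h i b hb
      by_cases hi : i ∈ vars R
      · obtain ⟨c, hc⟩ := Option.ne_none_iff_exists'.1 (mem_vars.1 hi)
        have h1 := h0.2 i b hb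
        rw [hc] at h1
        have h2 : c = b := by
          cases b <;> cases c <;> simp_all
        rw [hx i c hc, h2]
      · refine h i b ?_
        unfold cut
        rw [if_neg hi]
        exact hb
    · intro h i b hb
      unfold cut at hb
      split_ifs at hb
      exact h i b hb
  have honG : ∀ x, satT R x = true → on F x = on G x := by
    intro x hx
    rw [Bool.eq_iff_iff, on_iff, on_iff]
    constructor
    · rintro ⟨T, hT, h1⟩
      have hT0 : T ∈ F0 := by
        rw [hF0, mem_filter]
        refine ⟨hT, fun i b hb hR => ?_⟩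
        have a1 := satT_iff.1 h1 i b hb
        have a2 := satT_iff.1 hx i _ hR
        rw [a1] at a2
        cases b <;> simp at a2
      exact ⟨cut T (vars R), mem_image_of_mem _ hT0, by rw [key T hT0 x hx]; exact h1⟩
    · rintro ⟨T, hT, h1⟩
      rw [hG, mem_image] at hT
      obtain ⟨T0, h0, rfl⟩ := hT
      rw [key T0 h0 x hx] at h1
      exact ⟨T0, (mem_filter.1 h0).1, h1⟩
  -- a minimal subfamily
  set P := G.powerset.filter (fun H => ∀ x, on H x = on G x) with hP
  have hPne : P.Nonempty := ⟨G, by rw [hP, mem_filter, mem_powerset]; exact ⟨Subset.refl _, fun _ => rfl⟩⟩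
  obtain ⟨F', hF', hmin⟩ := exists_min_image P card hPne
  rw [hP, mem_filter, mem_powerset] at hF'
  have hrep : ∀ T ∈ F', ∃ T0 ∈ F0, cut T0 (vars R) = T := by
    intro T hT
    have := hF'.1 hT
    rw [hG, mem_image] at this
    obtain ⟨T0, h0, h1⟩ := this
    exact ⟨T0, h0, h1⟩
  refine ⟨F', hGR.mono hF'.1, ?_, ?_, ?_, ?_⟩
  · intro T hT
    by_contra hcon
    push Not at hcon
    have h1 : F'.erase T ∈ P := by
      rw [hP, mem_filter, mem_powerset]
      refine ⟨(erase_subset _ _).trans hF'.1, fun x => ?_⟩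
      rw [← hF'.2 x, Bool.eq_iff_iff, on_iff, on_iff]
      constructor
      · rintro ⟨T', h2, h3⟩
        exact ⟨T', (mem_erase.1 h2).2, h3⟩
      · rintro ⟨T', h2, h3⟩
        by_cases hTT : T' = T
        · subst hTT
          obtain ⟨T'', h4, h5⟩ := hcon x
          rcases h5 with ⟨h6, h7⟩ | ⟨h6, h7⟩
          · exact ⟨T'', mem_erase.2 ⟨h7, h4⟩, h6⟩
          · rw [h7] at h6
            exact absurd h3 h6
        · exact ⟨T', mem_erase.2 ⟨hTT, h2⟩, h3⟩
    have h2 := hmin _ h1
    have h3 := card_erase_lt_of_mem hT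
    omega
  · intro T hT
    obtain ⟨T0, _, h1⟩ := hrep T hT
    rw [← h1, vars_cut]
    exact sdiff_disjoint
  · intro x hx
    rw [honG x hx, hF'.2 x]
  · intro T hT
    obtain ⟨T0, h0, h1⟩ := hrep T hT
    refine ⟨T0, (mem_filter.1 h0).1, ?_, ?_⟩
    · rw [← h1]
      exact len_cut_le T0 (vars R)
    · intro x hx
      rw [← h1]
      exact key T0 h0 x hx

end Pool.Agent.Q121.RK
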